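import Pool.Agent.Helper91.LC.Defs

/-!
# LC-13: the chain lemma
-/

namespace Pool.Agent.Helper65.LC

open Complex Metric Set MeasureTheory intervalIntegral

section

variable {ℓ : ℝ} {Ψ : ℝ → ℝ}

/-- twice the integral up to half the gap -/
noncomputable def GG (Ψ : ℝ → ℝ) (g : ℝ) : ℝ := 2 * ∫ t in (0 : ℝ)..(g / 2), Ψ t

lemma integrable_of (hΨ : AntitoneOn Ψ (Icc 0 (ℓ / 2))) {a b : ℝ} (ha : 0 ≤ a) (hb : 0 ≤ b)
    (ha' : a ≤ ℓ / 2) (hb' : b ≤ ℓ / 2) : IntervalIntegrable Ψ volume a b := by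
  apply AntitoneOn.intervalIntegrable
  refine hΨ.mono ?_
  intro x hx
  rw [mem_uIcc] at hx
  rcases hx with h | h
  · exact ⟨ha.trans h.1, h.2.trans hb'⟩
  · exact ⟨hb.trans h.1, h.2.trans ha'⟩

lemma shift_le (hΨ : AntitoneOn Ψ (Icc 0 (ℓ / 2))) {p q c : ℝ} (hp : 0 ≤ p) (hpq : p ≤ q)
    (hc : 0 ≤ c) (hq : q + c ≤ ℓ / 2) :
    ∫ t in (p + c)..(q + c), Ψ t ≤ ∫ t in p..q, Ψ t := by
  rw [← intervalIntegral.integral_comp_add_right (fun t => Ψ t) c]
  apply intervalIntegral.integral_mono_on hpq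
  · have h := integrable_of hΨ (a := p + c) (b := q + c) (by linarith) (by linarith)
      (by linarith) hq
    have h2 := h.comp_add_right c
    simpa using h2
  · exact integrable_of hΨ hp (by linarith) (by linarith) (by linarith)
  · intro x hx
    exact hΨ ⟨by linarith [hx.1], by linarith [hx.2]⟩ ⟨by linarith [hx.1], by linarith [hx.2]⟩
      (by linarith)

/-- subadditivity -/
lemma GG_add (hΨ : AntitoneOn Ψ (Icc 0 (ℓ / 2))) {a b : ℝ} (ha : 0 ≤ a) (hb : 0 ≤ b)
    (hab : a + b ≤ ℓ) : GG Ψ (a + b) ≤ GG Ψ a + GG Ψ b := by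
  have h1 := shift_le hΨ (p := 0) (q := b / 2) (c := a / 2) le_rfl (by linarith) (by linarith)
    (by linarith)
  have h2 := intervalIntegral.integral_add_adjacent_intervals
    (integrable_of hΨ (a := 0) (b := a / 2) le_rfl (by linarith) (by linarith) (by linarith))
    (integrable_of hΨ (a := a / 2) (b := (a + b) / 2) (by linarith) (by linarith) (by linarith)
      (by linarith))
  rw [zero_add, show b / 2 + a / 2 = (a + b) / 2 by ring] at h1
  unfold GG
  linarith

/-- concavity -/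
lemma GG_spread (hΨ : AntitoneOn Ψ (Icc 0 (ℓ / 2))) {a b : ℝ} (ha : a ≤ ℓ) (hb : b ≤ ℓ)
    (ha0 : 0 ≤ a) (hab : ℓ ≤ a + b) : GG Ψ ℓ + GG Ψ (a + b - ℓ) ≤ GG Ψ a + GG Ψ b := by
  have h1 := shift_le hΨ (p := (a + b - ℓ) / 2) (q := b / 2) (c := (ℓ - b) / 2) (by linarith)
    (by linarith) (by linarith) (by linarith)
  have hb0 : 0 ≤ b := by linarith
  have h2 := intervalIntegral.integral_add_adjacent_intervals
    (integrable_of hΨ (a := 0) (b := a / 2) le_rfl (by linarith) (by linarith) (by linarith))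
    (integrable_of hΨ (a := a / 2) (b := ℓ / 2) (by linarith) (by linarith) (by linarith)
      le_rfl)
  have h3 := intervalIntegral.integral_add_adjacent_intervals
    (integrable_of hΨ (a := 0) (b := (a + b - ℓ) / 2) le_rfl (by linarith) (by linarith)
      (by linarith))
    (integrable_of hΨ (a := (a + b - ℓ) / 2) (b := b / 2) (by linarith) (by linarith)
      (by linarith) (by linarith))
  rw [show (a + b - ℓ) / 2 + (ℓ - b) / 2 = a / 2 by ring,
    show b / 2 + (ℓ - b) / 2 = ℓ / 2 by ring] at h1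
  unfold GG
  linarith

lemma gap {S : Set ℝ} (hΨ : AntitoneOn Ψ (Icc 0 (ℓ / 2))) {V : ℝ → ℝ} (hV : Continuous V)
    (hVΨ : ∀ θ, ∀ t ∈ S, |θ - t| ≤ ℓ / 2 → Ψ |θ - t| ≤ V θ) {s r : ℝ} (hs : s ∈ S) (hr : r ∈ S)
    (hsr : s ≤ r) (hl : r - s ≤ ℓ) : GG Ψ (r - s) ≤ ∫ θ in s..r, V θ := by
  have hg : (r - s) / 2 ≤ ℓ / 2 := by linarith
  have hg0 : 0 ≤ (r - s) / 2 := by linarith
  have hI := integrable_of hΨ (a := 0) (b := (r - s) / 2) le_rfl hg0 (by linarith) hg
  have e := intervalIntegral.integral_add_adjacent_intervals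
    (hV.intervalIntegrable (μ := volume) s ((s + r) / 2))
    (hV.intervalIntegrable (μ := volume) ((s + r) / 2) r)
  have h1 : ∫ t in (0 : ℝ)..((r - s) / 2), Ψ t ≤ ∫ θ in s..((s + r) / 2), V θ := by
    have e1 : ∫ θ in s..((s + r) / 2), Ψ (θ - s) = ∫ t in (0 : ℝ)..((r - s) / 2), Ψ t := by
      rw [intervalIntegral.integral_comp_sub_right (fun t => Ψ t) s]
      congr 1 <;> ring
    rw [← e1]
    apply intervalIntegral.integral_mono_on (by linarith)
    · have h2 := hI.comp_sub_right s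
      rw [show (0 : ℝ) + s = s by ring, show (r - s) / 2 + s = (s + r) / 2 by ring] at h2
      exact h2
    · exact hV.intervalIntegrable _ _
    · intro x hx
      have hx0 : 0 ≤ x - s := by linarith [hx.1]
      have h3 := hVΨ x s hs (by rw [abs_of_nonneg hx0]; linarith [hx.2])
      rwa [abs_of_nonneg hx0] at h3
  have h2 : ∫ t in (0 : ℝ)..((r - s) / 2), Ψ t ≤ ∫ θ in ((s + r) / 2)..r, V θ := by
    have e1 : ∫ θ in ((s + r) / 2)..r, Ψ (r - θ) = ∫ t in (0 : ℝ)..((r - s) / 2), Ψ t := by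
      rw [intervalIntegral.integral_comp_sub_left (fun t => Ψ t) r]
      congr 1 <;> ring
    rw [← e1]
    apply intervalIntegral.integral_mono_on (by linarith)
    · have h2 := (hI.comp_sub_left r).symm
      rw [show r - (0 : ℝ) = r by ring, show r - (r - s) / 2 = (s + r) / 2 by ring] at h2
      exact h2
    · exact hV.intervalIntegrable _ _
    · intro x hx
      have hx0 : x - r ≤ 0 := by linarith [hx.2]
      have h3 := hVΨ x r hr (by rw [abs_of_nonpos hx0]; linarith [hx.1])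
      rw [abs_of_nonpos hx0, neg_sub] at h3
      exact h3
  unfold GG
  linarith

end

theorem chain {S : Set ℝ} (hS : IsClosed S) (hper : ∀ t, t ∈ S ↔ t + 2 * Real.pi ∈ S)
    {ℓ : ℝ} (hℓ : 2 * Real.pi / 3 < ℓ) (hℓ' : ℓ < Real.pi)
    (hcov : ∀ x, ∃ t ∈ S, |t - x| ≤ ℓ / 2)
    {Ψ : ℝ → ℝ} (hΨ : AntitoneOn Ψ (Icc 0 (ℓ / 2))) (hΨ0 : ∀ t, 0 ≤ Ψ t)
    {V : ℝ → ℝ} (hV : Continuous V) (hVper : ∀ t, V (t + 2 * Real.pi) = V t)
    (hVΨ : ∀ θ, ∀ t ∈ S, |θ - t| ≤ ℓ / 2 → Ψ |θ - t| ≤ V θ) :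
    4 * (∫ t in (0 : ℝ)..(ℓ / 2), Ψ t) + 2 * (∫ t in (0 : ℝ)..(Real.pi - ℓ), Ψ t) ≤
      ∫ θ in (0 : ℝ)..(2 * Real.pi), V θ := by
  have hpi := Real.pi_pos
  have hℓ0 : 0 < ℓ := by linarith
  -- a point of S in (s, s + ℓ]
  have hnext : ∀ s : ℝ, ∃ t ∈ S, s < t ∧ t ≤ s + ℓ := by
    intro s
    by_contra hcon
    have hno : ∀ t ∈ S, s < t → s + ℓ < t := by
      intro t ht h1
      by_contra h2
      exact hcon ⟨t, ht, h1, not_lt.mp h2⟩
    have hmem : s + ℓ ∈ S := by
      rw [← hS.closure_eq]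
      rw [Metric.mem_closure_iff]
      intro ε hε
      obtain ⟨t, ht, h⟩ := hcov (s + ℓ / 2 + ε / 2)
      rw [abs_le] at h
      have h3 := hno t ht (by linarith [h.1])
      refine ⟨t, ht, ?_⟩
      rw [Real.dist_eq, abs_lt]
      constructor <;> linarith [h.2]
    exact hcon ⟨s + ℓ, hmem, by linarith, le_rfl⟩
  -- the successor
  have hsucc : ∀ s : ℝ, ∃ t ∈ S, s < t ∧ t ≤ s + ℓ ∧ ∀ r ∈ S, r ≤ s + ℓ → r ≤ t := by
    intro s
    obtain ⟨t0, ht0, h1, h2⟩ := hnext s
    have hc : IsCompact (S ∩ Icc s (s + ℓ)) := by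
      rw [inter_comm]
      exact isCompact_Icc.inter_right hS
    obtain ⟨t, ht, hmax⟩ := hc.exists_isMaxOn ⟨t0, ht0, h1.le, h2⟩ continuousOn_id
    have hge : t0 ≤ t := hmax ⟨ht0, h1.le, h2⟩
    refine ⟨t, ht.1, lt_of_lt_of_le h1 hge, ht.2.2, fun r hr hr2 => ?_⟩
    by_cases hrs : s ≤ r
    · exact hmax ⟨hr, hrs, hr2⟩
    · linarith [not_le.mp hrs]
  have hint : ∀ a b c : ℝ, ∫ θ in a..c, V θ = (∫ θ in a..b, V θ) + ∫ θ in b..c, V θ :=
    fun a b c => (intervalIntegral.integral_add_adjacent_intervals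
      (hV.intervalIntegrable a b) (hV.intervalIntegrable b c)).symm
  obtain ⟨t0, ht0, _⟩ := hcov 0
  set e : ℝ := t0 + 2 * Real.pi with he
  have heS : e ∈ S := (hper t0).mp ht0
  -- distance at most ℓ
  have A1 : ∀ s ∈ S, s ≤ e → e - s ≤ ℓ → GG Ψ (e - s) ≤ ∫ θ in s..e, V θ :=
    fun s hs h1 h2 => gap hΨ hV hVΨ hs heS h1 h2
  -- distance between ℓ and 2ℓ
  have A2 : ∀ s ∈ S, ℓ < e - s → e - s ≤ 2 * ℓ → GG Ψ ℓ + GG Ψ (e - s - ℓ) ≤
      ∫ θ in s..e, V θ := by
    intro s hs h1 h2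
    obtain ⟨r, hr, hr1, hr2, hr3⟩ := hsucc s
    have g1 := gap hΨ hV hVΨ hs hr hr1.le (by linarith)
    have i1 := hint s r e
    by_cases hc : e - r ≤ ℓ
    · have g2 := A1 r hr (by linarith) hc
      have k := GG_spread hΨ (a := r - s) (b := e - r) (by linarith) hc (by linarith)
        (by linarith)
      rw [show r - s + (e - r) - ℓ = e - s - ℓ by ring] at k
      linarith
    · push Not at hc
      obtain ⟨q, hq, hq1, hq2, hq3⟩ := hsucc r
      have hql : s + ℓ < q := by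
        by_contra hcon
        linarith [hr3 q hq (not_lt.mp hcon)]
      have g2 := gap hΨ hV hVΨ hr hq hq1.le (by linarith)
      have g3 := A1 q hq (by linarith) (by linarith)
      have i2 := hint r q e
      have k1 := GG_spread hΨ (a := r - s) (b := q - r) (by linarith) (by linarith)
        (by linarith) (by linarith)
      have k2 := GG_add hΨ (a := r - s + (q - r) - ℓ) (b := e - q) (by linarith)
        (by linarith) (by linarith)
      rw [show r - s + (q - r) - ℓ + (e - q) = e - s - ℓ by ring] at k2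
      linarith
  -- distance between 2ℓ and 3ℓ
  have A3 : ∀ s ∈ S, 2 * ℓ < e - s → e - s ≤ 3 * ℓ → 2 * GG Ψ ℓ + GG Ψ (e - s - 2 * ℓ) ≤
      ∫ θ in s..e, V θ := by
    intro s hs h1 h2
    obtain ⟨r, hr, hr1, hr2, hr3⟩ := hsucc s
    have g1 := gap hΨ hV hVΨ hs hr hr1.le (by linarith)
    have i1 := hint s r e
    by_cases hc : e - r ≤ 2 * ℓ
    · have g2 := A2 r hr (by linarith) hc
      have k := GG_spread hΨ (a := r - s) (b := e - r - ℓ) (by linarith) (by linarith)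
        (by linarith) (by linarith)
      rw [show r - s + (e - r - ℓ) - ℓ = e - s - 2 * ℓ by ring] at k
      linarith
    · push Not at hc
      obtain ⟨q, hq, hq1, hq2, hq3⟩ := hsucc r
      have hql : s + ℓ < q := by
        by_contra hcon
        linarith [hr3 q hq (not_lt.mp hcon)]
      have g2 := gap hΨ hV hVΨ hr hq hq1.le (by linarith)
      have g3 := A2 q hq (by linarith) (by linarith)
      have i2 := hint r q e
      have k1 := GG_spread hΨ (a := r - s) (b := q - r) (by linarith) (by linarith)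
        (by linarith) (by linarith)
      have k2 := GG_add hΨ (a := r - s + (q - r) - ℓ) (b := e - q - ℓ) (by linarith)
        (by linarith) (by linarith)
      rw [show r - s + (q - r) - ℓ + (e - q - ℓ) = e - s - 2 * ℓ by ring] at k2
      linarith
  have hfin := A3 t0 ht0 (by rw [he]; linarith) (by rw [he]; linarith)
  have hP : Function.Periodic V (2 * Real.pi) := hVper
  have hPi := hP.intervalIntegral_add_eq t0 0
  rw [zero_add, ← he] at hPi
  rw [hPi] at hfin
  unfold GG at hfin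
  rw [show (e - t0 - 2 * ℓ) / 2 = Real.pi - ℓ by rw [he]; ring] at hfin
  linarith

end Pool.Agent.Helper65.LC
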